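import Mathlib

/-!
# `d(S,R) < ∞` does not bound the relative Davenport constants of `S/𝓗`

All semigroups are commutative and written additively.
-/

set_option autoImplicit false

universe u v

namespace Pool.Agent.Results.MP_6ad575_co.FiniteDNotBounded

section Defs

variable {S : Type u}

/-- `mult x m = (m+1) • x`, the `(m+1)`-fold sum of `x` with itself. -/
def mult [Add S] (x : S) : ℕ → S
  | 0 => x
  | m + 1 => mult x m + x

/-- The cyclic subsemigroup `⟨x⟩ = {m x : m ≥ 1}`. -/
def cyc [Add S] (x : S) : Set S := Set.range (mult x)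

/-- `S` is periodic: every cyclic subsemigroup is finite. -/
def Periodic (S : Type u) [Add S] : Prop := ∀ x : S, (cyc x).Finite

/-- `⟨a⟩` is a group under addition. -/
def CycIsGroup [Add S] (a : S) : Prop :=
  ∃ e ∈ cyc a, ∀ x ∈ cyc a, e + x = x ∧ ∃ y ∈ cyc a, x + y = e

open Classical in
/-- `e(x)`: the idempotent of the cyclic subsemigroup `⟨x⟩`. -/
noncomputable def idem [Add S] (x : S) : S :=
  if h : ∃ f, f ∈ cyc x ∧ f + f = f then h.choose else x

/-- The product of the entries of a list is nonzero; the empty product counts as nonzero. -/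
def ProdNonzero {A : Type v} [Mul A] [Zero A] : List A → Prop
  | [] => True
  | x :: l => l.foldl (fun p q => p * q) x ≠ 0

/-- The sequence `s₁, …, s_ℓ` in `S` satisfies `∏ (X^{s_i} - a_i X^{e(s_i)}) ≠ 0` in `R[X;S]`
for all nonzero `a₁, …, a_ℓ ∈ R`. -/
def Good [AddCommSemigroup S] (R : Type v) [CommRing R] (l : ℕ) (s : Fin l → S) : Prop :=
  ∀ a : Fin l → R, (∀ i, a i ≠ 0) →
    ProdNonzero (List.ofFn fun i =>
      (AddMonoidAlgebra.single (s i) (1 : R) - AddMonoidAlgebra.single (idem (s i)) (a i) :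
        AddMonoidAlgebra R S))

/-- `d(S,R)`: the supremum of the lengths `ℓ` of the sequences as in `Good`. -/
noncomputable def dInv (S : Type u) [AddCommSemigroup S] (R : Type v) [CommRing R] : ℕ∞ :=
  ⨆ (l : ℕ) (_ : ∃ s : Fin l → S, Good R l s), (l : ℕ∞)

/-- `a ⪯ b`: `a = b` or `a = b + c` for some `c`. -/
def Le [Add S] (a b : S) : Prop := a = b ∨ ∃ c, a = b + c

lemma Le.refl [Add S] (a : S) : Le a a := Or.inl rfl

lemma Le.trans [AddCommSemigroup S] {a b c : S} (h : Le a b) (k : Le b c) : Le a c := by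
  rcases h with rfl | ⟨x, rfl⟩
  · exact k
  · rcases k with rfl | ⟨y, rfl⟩
    · exact Or.inr ⟨x, rfl⟩
    · exact Or.inr ⟨y + x, by rw [add_assoc]⟩

lemma Le.add [AddCommSemigroup S] {a b c d : S} (h : Le a b) (k : Le c d) :
    Le (a + c) (b + d) := by
  rcases h with rfl | ⟨x, rfl⟩
  · rcases k with rfl | ⟨y, rfl⟩
    · exact Le.refl _
    · exact Or.inr ⟨y, by rw [add_assoc]⟩
  · rcases k with rfl | ⟨y, rfl⟩
    · exact Or.inr ⟨x, by rw [add_right_comm]⟩
    · exact Or.inr ⟨x + y, by rw [add_add_add_comm]⟩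

/-- The congruence `𝓗` on `S`: `a 𝓗 b` iff `a ⪯ b` and `b ⪯ a`. -/
def HCon (S : Type u) [AddCommSemigroup S] : AddCon S where
  r a b := Le a b ∧ Le b a
  iseqv := ⟨fun a => ⟨Le.refl a, Le.refl a⟩, fun h => ⟨h.2, h.1⟩,
    fun h k => ⟨h.1.trans k.1, k.2.trans h.2⟩⟩
  add' := fun h k => ⟨h.1.add k.1, h.2.add k.2⟩

variable {T : Type u}

/-- The sequence `s` over the commutative semigroup `T` has sum `b`.  The sum of a nonempty
sequence is computed in `T` with a new neutral element adjoined; the empty sequence has sum `b`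
exactly when `b` is the identity element of `T`. -/
def HasSum [AddCommSemigroup T] (s : Multiset T) (b : T) : Prop :=
  (s.map (fun x : T => (x : WithZero T))).sum = (b : WithZero T) ∨ (s = 0 ∧ ∀ x, b + x = x)

/-- The sequence `s` is irreducible: no proper subsequence has the same sum. -/
def Irred [AddCommSemigroup T] (s : Multiset T) : Prop :=
  ∀ b, HasSum s b → ∀ t, t < s → ¬ HasSum t b

/-- `D_b(T)`: the largest length of an irreducible sequence over `T` with sum `b`. -/
noncomputable def D [AddCommSemigroup T] (b : T) : ℕ∞ :=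
  ⨆ (s : Multiset T) (_ : Irred s ∧ HasSum s b), (Multiset.card s : ℕ∞)

/-- Sanity check: `D_b(T) = 0` if `b` is the identity of `T`. -/
lemma D_identity [AddCommSemigroup T] (b : T) (hb : ∀ x, b + x = x) : D b = 0 := by
  refine le_antisymm ?_ bot_le
  refine iSup_le fun s => iSup_le fun hs => ?_
  have : s = 0 := by
    by_contra h
    exact hs.1 b hs.2 0 (lt_of_le_of_ne (Multiset.zero_le s) (Ne.symm h)) (Or.inr ⟨rfl, hb⟩)
  simp [this]

end Defs

/-! ### The example -/

/-- The underlying set of the example: pairs `(A, k)` with `A ⊆ ℕ` and `k ∈ {0,1,2}`. -/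
@[ext] structure Ex : Type where
  /-- the set component -/
  A : Set ℕ
  /-- the level, `0`, `1` or `2` -/
  k : Fin 3

/-- Truncated addition on `{0,1,2}`. -/
def tadd (k l : Fin 3) : Fin 3 := ⟨min 2 (k.1 + l.1), by omega⟩

instance : Add Ex := ⟨fun x y => ⟨x.A ∪ y.A, tadd x.k y.k⟩⟩

@[simp] lemma add_A (x y : Ex) : (x + y).A = x.A ∪ y.A := rfl
@[simp] lemma add_k (x y : Ex) : (x + y).k = tadd x.k y.k := rfl

lemma tadd_assoc : ∀ a b c : Fin 3, tadd (tadd a b) c = tadd a (tadd b c) := by decide
lemma tadd_comm : ∀ a b : Fin 3, tadd a b = tadd b a := by decide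

instance : AddCommSemigroup Ex where
  add_assoc x y z := by ext1 <;> simp [Set.union_assoc, tadd_assoc]
  add_comm x y := by ext1 <;> simp [Set.union_comm, tadd_comm]

lemma mult_A (x : Ex) (m : ℕ) : (mult x m).A = x.A := by
  induction m with
  | zero => rfl
  | succ m ih => simp [mult, ih]

lemma mem_cyc_A {x y : Ex} (h : y ∈ cyc x) : y.A = x.A := by
  obtain ⟨m, rfl⟩ := h
  exact mult_A x m

lemma periodic_Ex : Periodic Ex := by
  intro x
  have : cyc x ⊆ Set.range (fun k : Fin 3 => (⟨x.A, k⟩ : Ex)) := by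
    intro y hy
    exact ⟨y.k, by ext1 <;> simp [mem_cyc_A hy]⟩
  exact (Set.finite_range _).subset this

lemma idem_spec (x : Ex) : idem x ∈ cyc x ∧ idem x + idem x = idem x := by
  have h : ∃ f, f ∈ cyc x ∧ f + f = f := by
    refine ⟨mult x 1, ⟨1, rfl⟩, ?_⟩
    have : ∀ k : Fin 3, tadd (tadd k k) (tadd k k) = tadd k k := by decide
    ext1 <;> simp [mult, this]
  unfold idem
  rw [dif_pos h]
  exact h.choose_spec

lemma tadd_self_eq : ∀ k : Fin 3, tadd k k = k → k = 0 ∨ k = 2 := by decide

lemma mult_k_zero (x : Ex) (h : x.k = 0) (m : ℕ) : (mult x m).k = 0 := by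
  induction m with
  | zero => exact h
  | succ m ih => simp only [mult, add_k, ih, h]; decide

lemma mult_k_ne_zero (x : Ex) (h : x.k ≠ 0) (m : ℕ) : (mult x m).k ≠ 0 := by
  induction m with
  | zero => exact h
  | succ m ih =>
    have : ∀ a b : Fin 3, a ≠ 0 → b ≠ 0 → tadd a b ≠ 0 := by decide
    exact this _ _ ih h

lemma idem_A (x : Ex) : (idem x).A = x.A := mem_cyc_A (idem_spec x).1

lemma idem_k (x : Ex) : (idem x).k = if x.k = 0 then 0 else 2 := by
  obtain ⟨m, hm⟩ := (idem_spec x).1
  split_ifs with h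
  · rw [← hm]; exact mult_k_zero x h m
  · have h2 := mult_k_ne_zero x h m
    rw [hm] at h2
    have h3 : tadd (idem x).k (idem x).k = (idem x).k := by
      rw [← add_k, (idem_spec x).2]
    exact (tadd_self_eq _ h3).resolve_left h2

/-- The basic factor `X^s - X^{e(s)}`. -/
noncomputable def fac (R : Type v) [CommRing R] (x : Ex) : AddMonoidAlgebra R Ex :=
  AddMonoidAlgebra.single x (1 : R) - AddMonoidAlgebra.single (idem x) (1 : R)

lemma fac_mul_fac (R : Type v) [CommRing R] (x y : Ex) : fac R x * fac R y = 0 := by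
  have key : ∀ k l : Fin 3, (k = 0 ∨ k = 2) ∨ (l = 0 ∨ l = 2) ∨ (k = 1 ∧ l = 1) := by decide
  have hz : ∀ z : Ex, z.k = 0 ∨ z.k = 2 → fac R z = 0 := by
    intro z hz
    have : idem z = z := by
      ext1
      · exact idem_A z
      · rw [idem_k]; rcases hz with h | h <;> simp [h]
    simp [fac, this]
  rcases key x.k y.k with h | h | ⟨h1, h2⟩
  · rw [hz x h, zero_mul]
  · rw [hz y h, mul_zero]
  · have e1 : x + y = idem x + y := by
      ext1
      · simp [idem_A]
      · simp [idem_k, h1, h2]; decide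
    have e2 : x + idem y = idem x + idem y := by
      ext1
      · simp [idem_A]
      · simp [idem_k, h1, h2]; decide
    simp only [fac, sub_mul, mul_sub, AddMonoidAlgebra.single_mul_single, mul_one]
    rw [e1, e2]
    abel

lemma foldl_zero (R : Type v) [CommRing R] (l : List (AddMonoidAlgebra R Ex)) :
    l.foldl (fun p q => p * q) (0 : AddMonoidAlgebra R Ex) = 0 := by
  induction l with
  | nil => rfl
  | cons x l ih => simpa using ih

lemma not_good_of_two_le (R : Type v) [CommRing R] [Nontrivial R] (l : ℕ) (hl : 2 ≤ l)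
    (s : Fin l → Ex) : ¬ Good R l s := by
  obtain ⟨m, rfl⟩ : ∃ m, l = m + 2 := ⟨l - 2, by omega⟩
  intro h
  have h1 := h (fun _ => 1) (fun _ => one_ne_zero)
  rw [List.ofFn_succ, List.ofFn_succ] at h1
  apply h1
  rw [List.foldl_cons]
  have : (AddMonoidAlgebra.single (s 0) (1 : R) - AddMonoidAlgebra.single (idem (s 0)) (1 : R) :
        AddMonoidAlgebra R Ex) *
      (AddMonoidAlgebra.single (s (Fin.succ 0)) (1 : R) -
        AddMonoidAlgebra.single (idem (s (Fin.succ 0))) (1 : R)) = 0 :=
    fac_mul_fac R (s 0) (s (Fin.succ 0))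
  rw [this]
  exact foldl_zero R _

lemma good_one (R : Type v) [CommRing R] [Nontrivial R] :
    Good R 1 (fun _ => (⟨∅, 1⟩ : Ex)) := by
  intro a _
  simp only [List.ofFn_succ, List.ofFn_zero, ProdNonzero, List.foldl_nil]
  intro h
  have hne : (⟨∅, 1⟩ : Ex) ≠ idem (⟨∅, 1⟩ : Ex) := by
    intro h
    have := congrArg Ex.k h
    rw [idem_k] at this
    simp at this
  have h2 := congrArg (fun p : AddMonoidAlgebra R Ex => p.coeff (⟨∅, 1⟩ : Ex)) h
  simp [hne.symm] at h2

lemma dInv_Ex (R : Type v) [CommRing R] [Nontrivial R] : dInv Ex R = 1 := by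
  apply le_antisymm
  · refine iSup_le fun l => iSup_le fun hl => ?_
    obtain ⟨s, hs⟩ := hl
    have : l < 2 := by
      by_contra h
      exact not_good_of_two_le R l (by omega) s hs
    have : l ≤ 1 := by omega
    exact_mod_cast this
  · have : ((1 : ℕ) : ℕ∞) ≤ dInv Ex R :=
      le_iSup₂_of_le (f := fun (l : ℕ) (_ : ∃ s : Fin l → Ex, Good R l s) => (l : ℕ∞)) 1
        ⟨_, good_one R⟩ le_rfl
    exact_mod_cast this

/-- `𝓗` is trivial on the example. -/
lemma H_trivial {x y : Ex} (h : Le x y ∧ Le y x) : x = y := by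
  have hA : ∀ {a b : Ex}, Le a b → b.A ⊆ a.A := by
    intro a b h
    rcases h with rfl | ⟨c, rfl⟩
    · exact subset_rfl
    · exact Set.subset_union_left
  have hk : ∀ {a b : Ex}, Le a b → b.k ≤ a.k := by
    intro a b h
    rcases h with rfl | ⟨c, rfl⟩
    · exact le_rfl
    · have : ∀ a b : Fin 3, a ≤ tadd a b := by decide
      exact this _ _
  ext1
  · exact Set.Subset.antisymm (hA h.2) (hA h.1)
  · exact le_antisymm (hk h.2) (hk h.1)

/-- the quotient map to `S/𝓗` is injective on the example -/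
lemma mk_inj {x y : Ex} (h : (x : (HCon Ex).Quotient) = y) : x = y :=
  H_trivial ((AddCon.eq (HCon Ex)).mp h)

/-- Predicate on `S/𝓗`: the number `m` lies in the set component. -/
def Has (m : ℕ) (q : (HCon Ex).Quotient) : Prop := ∃ x : Ex, (x : (HCon Ex).Quotient) = q ∧ m ∈ x.A

lemma has_mk (m : ℕ) (x : Ex) : Has m (x : (HCon Ex).Quotient) ↔ m ∈ x.A := by
  constructor
  · rintro ⟨y, hy, hm⟩
    rw [← mk_inj hy]; exact hm
  · intro h; exact ⟨x, rfl, h⟩

lemma has_add (m : ℕ) (p q : (HCon Ex).Quotient) : Has m (p + q) ↔ Has m p ∨ Has m q := by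
  induction p using AddCon.induction_on with
  | _ x =>
  induction q using AddCon.induction_on with
  | _ y =>
  rw [← AddCon.coe_add, has_mk, has_mk, has_mk]
  rfl

lemma sum_cases {T : Type u} [AddCommSemigroup T] (P : T → Prop)
    (hP : ∀ x y, P (x + y) ↔ P x ∨ P y) (s : Multiset T) :
    (s = 0 ∧ (s.map (fun x : T => (x : WithZero T))).sum = 0) ∨
      ∃ b : T, (s.map (fun x : T => (x : WithZero T))).sum = (b : WithZero T) ∧
        (P b ↔ ∃ x ∈ s, P x) := by
  induction s using Multiset.induction_on with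
  | empty => left; simp
  | cons x s ih =>
    right
    rcases ih with ⟨rfl, _⟩ | ⟨b, hb, hPb⟩
    · exact ⟨x, by simp, by simp⟩
    · refine ⟨x + b, ?_, ?_⟩
      · rw [Multiset.map_cons, Multiset.sum_cons, hb, WithZero.coe_add]
      · rw [hP, hPb]; simp

/-- The sequence used: `({0},0), …, ({n-1},0), ({n, n+1, …}, 1)`, as a list of elements of `S`. -/
def term (n : ℕ) (i : ℕ) : Ex := if i < n then ⟨{i}, 0⟩ else ⟨{j | n ≤ j}, 1⟩

lemma mem_term {n i : ℕ} (hi : i ≤ n) (m : ℕ) (hm : m ≤ n) : m ∈ (term n i).A ↔ m = i := by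
  unfold term
  split_ifs with h
  · simp
  · simp; omega

lemma sum_term (n : ℕ) : ∀ k, k ≤ n →
    (((Multiset.range k).map (fun i => (term n i : (HCon Ex).Quotient))).map
      (fun x : (HCon Ex).Quotient => (x : WithZero (HCon Ex).Quotient))).sum +
      (((⟨{j | n ≤ j}, 1⟩ : Ex) : (HCon Ex).Quotient) : WithZero (HCon Ex).Quotient) =
    (((⟨{j | j < k} ∪ {j | n ≤ j}, 1⟩ : Ex) : (HCon Ex).Quotient) :
      WithZero (HCon Ex).Quotient) := by
  intro k
  induction k with
  | zero => intro _; simp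
  | succ k ih =>
    intro hk
    rw [Multiset.range_succ, Multiset.map_cons, Multiset.map_cons, Multiset.sum_cons, add_assoc,
      ih (by omega), ← WithZero.coe_add, ← AddCon.coe_add]
    congr 2
    ext1
    · have : term n k = ⟨{k}, 0⟩ := by simp [term, show k < n by omega]
      rw [add_A, this]
      ext j
      simp only [Set.mem_union, Set.mem_singleton_iff, Set.mem_ofPred_eq]
      omega
    · have : term n k = ⟨{k}, 0⟩ := by simp [term, show k < n by omega]
      rw [add_k, this]
      exact (by decide : tadd 0 1 = 1)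

/-- the top element of level one -/
def topEx : Ex := ⟨Set.univ, 1⟩

lemma hasSum_seq (n : ℕ) :
    HasSum ((Multiset.range (n + 1)).map (fun i => ((term n i : (HCon Ex).Quotient))))
      (topEx : (HCon Ex).Quotient) := by
  left
  rw [Multiset.range_succ, Multiset.map_cons, Multiset.map_cons, Multiset.sum_cons, add_comm]
  have : term n n = ⟨{j | n ≤ j}, 1⟩ := by simp [term]
  rw [this, sum_term n n le_rfl]
  congr 2
  ext1
  · ext j
    simp only [Set.mem_union, Set.mem_ofPred_eq, topEx, Set.mem_univ, iff_true]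
    omega
  · rfl

lemma irred_seq (n : ℕ) :
    Irred ((Multiset.range (n + 1)).map (fun i => ((term n i : (HCon Ex).Quotient)))) := by
  intro b hb t ht hbt
  set s := (Multiset.range (n + 1)).map (fun i => ((term n i : (HCon Ex).Quotient))) with hs
  have hnd : s.Nodup := by
    rw [hs]
    refine (Multiset.nodup_map_iff_inj_on (Multiset.nodup_range _)).mpr ?_
    intro i hi j hj hij
    have hij' := mk_inj hij
    rw [Multiset.mem_range] at hi hj
    have := (mem_term (n := n) (i := i) (by omega) i (by omega)).mpr rfl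
    rw [hij', mem_term (by omega) i (by omega)] at this
    exact this
  -- the element missing from `t`
  obtain ⟨q, hqs, hqt⟩ : ∃ q ∈ s, q ∉ t := by
    by_contra hcon
    push Not at hcon
    exact absurd ((Multiset.le_iff_subset hnd).mpr (fun q hq => hcon q hq)) (not_le_of_gt ht)
  rw [hs, Multiset.mem_map] at hqs
  obtain ⟨i, hi, rfl⟩ := hqs
  rw [Multiset.mem_range] at hi
  -- `i` lies in the set component of `b`
  have hsne : s ≠ 0 := by
    intro h0
    rw [h0] at ht
    exact absurd ht (not_lt_of_ge (Multiset.zero_le t))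
  have hb1 : Has i b := by
    rcases hb with hb | ⟨h0, _⟩
    · rcases sum_cases (Has i) (has_add i) s with ⟨h0, _⟩ | ⟨c, hc, hPc⟩
      · exact absurd h0 hsne
      · rw [hc] at hb
        have hcb : c = b := WithZero.coe_inj.mp hb
        rw [← hcb, hPc]
        refine ⟨(term n i : (HCon Ex).Quotient), ?_, ?_⟩
        · rw [hs]; exact Multiset.mem_map_of_mem _ (Multiset.mem_range.mpr hi)
        · rw [has_mk, mem_term (by omega) i (by omega)]
    · exact absurd h0 hsne
  rcases hbt with hbt | ⟨h0, hid⟩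
  · rcases sum_cases (Has i) (has_add i) t with ⟨_, h1⟩ | ⟨c, hc, hPc⟩
    · rw [h1] at hbt
      exact absurd hbt.symm WithZero.coe_ne_zero
    · rw [hc] at hbt
      have hcb : c = b := WithZero.coe_inj.mp hbt
      rw [hcb] at hPc
      obtain ⟨x, hxt, hx⟩ := hPc.mp hb1
      have hxs : x ∈ s := Multiset.mem_of_le ht.le hxt
      rw [hs, Multiset.mem_map] at hxs
      obtain ⟨j, hj, rfl⟩ := hxs
      rw [Multiset.mem_range] at hj
      rw [has_mk, mem_term (by omega) i (by omega)] at hx
      subst hx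
      exact hqt hxt
  · -- `b` would be the identity, but `i` lies in the set component of `b`
    have := hid (((⟨∅, 0⟩ : Ex) : (HCon Ex).Quotient))
    have h2 : Has i (b + ((⟨∅, 0⟩ : Ex) : (HCon Ex).Quotient)) := by
      rw [has_add]; exact Or.inl hb1
    rw [this, has_mk] at h2
    exact h2

lemma D_top : D (topEx : (HCon Ex).Quotient) = ⊤ := by
  rw [ENat.eq_top_iff_forall_gt]
  intro n
  have : ((n + 1 : ℕ) : ℕ∞) ≤ D (topEx : (HCon Ex).Quotient) := by
    refine le_iSup₂_of_le (f := fun (s : Multiset (HCon Ex).Quotient)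
      (_ : Irred s ∧ HasSum s (topEx : (HCon Ex).Quotient)) => (Multiset.card s : ℕ∞))
      ((Multiset.range (n + 1)).map (fun i => ((term n i : (HCon Ex).Quotient))))
      ⟨irred_seq n, hasSum_seq n⟩ ?_
    simp
  refine lt_of_lt_of_le ?_ this
  exact_mod_cast Nat.lt_succ_self n

lemma not_group_top : ¬ CycIsGroup topEx := by
  rintro ⟨e, he, h⟩
  have h1 := (h topEx ⟨0, rfl⟩)
  obtain ⟨m, rfl⟩ := he
  have h2 := congrArg Ex.k h1.1
  have h3 := mult_k_ne_zero topEx (by decide) m
  have : ∀ a : Fin 3, a ≠ 0 → tadd a 1 ≠ 1 := by decide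
  exact this _ h3 h2

/-- **Theorem.** There is a commutative periodic semigroup `S` such that `d(S,R) = 1` for every
nonzero commutative ring `R`, while for some `a ∈ S` with `⟨a⟩` not a group the relative Davenport
constant `D_ā(S/𝓗)` is infinite. -/
theorem result :
    ∃ (S : Type) (_ : AddCommSemigroup S), Periodic S ∧
      (∀ (R : Type v) [CommRing R] [Nontrivial R], dInv S R = 1) ∧
      ∃ a : S, ¬ CycIsGroup a ∧ D (a : (HCon S).Quotient) = ⊤ :=
  ⟨Ex, inferInstance, periodic_Ex, fun R _ _ => dInv_Ex R, topEx, not_group_top, D_top⟩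

end Pool.Agent.Results.MP_6ad575_co.FiniteDNotBounded
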